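import Mathlib

set_option autoImplicit false

namespace Pool.Agent.Results.MP_174dab_an.Chords

open Set Real

/-- `g_n(x) = Σ_{k=1}^n sin (2πkx)`. -/
noncomputable def g (n : ℕ) (x : ℝ) : ℝ := ∑ k ∈ Finset.Icc 1 n, sin (2 * π * k * x)

/-- The chord set `H(f)`. -/
def H (f : ℝ → ℝ) : Set ℝ := {l ∈ Icc 0 1 | ∃ x ∈ Icc l 1, f (x - l) = f x}

/-- `V_n`. -/
def V (n : ℕ) : Set ℝ := ⋃ k ∈ Finset.Icc 1 n, Ioo ((k : ℝ) / (n + 1)) (k / n)

lemma form (n : ℕ) (x : ℝ) : 2 * sin (π * x) * g n x = cos (π * x) - cos ((2 * n + 1) * (π * x)) := by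
  induction n with
  | zero => simp [g]
  | succ n ih =>
    rw [g, Finset.sum_Icc_succ_top (by omega), mul_add, ← g, ih]
    push_cast
    rw [show (2 * (n : ℝ) + 1) * (π * x) = 2 * π * (n + 1) * x - π * x by ring,
      show (2 * ((n : ℝ) + 1) + 1) * (π * x) = 2 * π * (n + 1) * x + π * x by ring, cos_sub, cos_add]
    ring

lemma g0 (n : ℕ) : g n 0 = 0 := by simp [g]

lemma g1 (n : ℕ) : g n 1 = 0 := Finset.sum_eq_zero fun k _ => by
  rw [mul_one, show 2 * π * k = (2 * k : ℕ) * π by push_cast; ring, sin_nat_mul_pi]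

lemma dec {n : ℕ} (hn : 1 ≤ n) {l x : ℝ} (h1 : 1 < l * (n + 1)) (h2 : l * n < 1) (x0 : 0 ≤ x)
    (x1 : x + l ≤ 1) : g n (x + l) < g n x := by
  have p := pi_pos
  have n1 : (1 : ℝ) ≤ n := by exact_mod_cast hn
  have l0 : 0 < l := by nlinarith
  have l1 : l < 1 := by nlinarith
  have c : cos (π * l) < cos ((2 * n + 1) * (π * l)) := by
    rw [← cos_sub_two_pi ((2 * n + 1) * (π * l)), ← cos_abs (_ - _)]
    exact cos_lt_cos_of_nonneg_of_le_pi (abs_nonneg _) (by nlinarith)
      (abs_lt.2 ⟨by nlinarith, by nlinarith⟩)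
  have sl : 0 < sin (π * l) := sin_pos_of_pos_of_lt_pi (by positivity) (by nlinarith)
  have a := form n x
  have b := form n (x + l)
  rcases x0.eq_or_lt with rfl | x0
  · rw [zero_add] at b ⊢
    rw [g0]
    nlinarith
  have su : 0 < sin (π * x) := sin_pos_of_pos_of_lt_pi (by positivity) (by nlinarith)
  rcases x1.eq_or_lt with e | x1
  · rw [e, g1]
    rw [show x = 1 - l by linarith, show π * (1 - l) = π - π * l by ring, cos_pi_sub,
      show (2 * n + 1) * (π - π * l) = π - (2 * n + 1) * (π * l) + n * (2 * π) by ring,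
      cos_add_nat_mul_two_pi, cos_pi_sub, sin_pi_sub] at a
    rw [show x = 1 - l by linarith]
    nlinarith
  have sv : 0 < sin (π * (x + l)) := sin_pos_of_pos_of_lt_pi (by positivity) (by nlinarith)
  have eL : π * l = π * (x + l) - π * x := by ring
  rw [show (2 * n + 1) * (π * (x + l)) = (2 * n + 1) * (π * x) + (2 * n + 1) * (π * l) by ring,
    cos_add] at b
  generalize (2 * n + 1) * (π * x) = θ at a b
  generalize (2 * n + 1) * (π * l) = ε at b c
  rw [eL, cos_sub] at c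
  rw [eL, sin_sub] at sl
  have t1 := sin_sq_add_cos_sq θ
  have t2 := sin_sq_add_cos_sq ε
  have t3 := sin_sq_add_cos_sq (π * x)
  have t4 := sin_sq_add_cos_sq (π * (x + l))
  generalize sin (π * x) = s at *
  generalize cos (π * x) = c1 at *
  generalize sin (π * (x + l)) = t at *
  generalize cos (π * (x + l)) = c2 at *
  have st := mul_pos su sv
  have k : (cos θ * (t - s * cos ε) + sin θ * (s * sin ε)) ^ 2 < (t * c1 - c2 * s) ^ 2 := by
    have e1 : (cos θ * (t - s * cos ε) + sin θ * (s * sin ε)) ^ 2 +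
        (sin θ * (t - s * cos ε) - cos θ * (s * sin ε)) ^ 2 = t ^ 2 + s ^ 2 - 2 * (s * t) * cos ε := by
      linear_combination ((t - s * cos ε) ^ 2 + (s * sin ε) ^ 2) * t1 + s ^ 2 * t2
    have e2 : (t * c1 - c2 * s) ^ 2 = t ^ 2 + s ^ 2 - 2 * (s * t) * (c2 * c1 + t * s) := by
      linear_combination t ^ 2 * t3 + s ^ 2 * t4
    nlinarith [sq_nonneg (sin θ * (t - s * cos ε) - cos θ * (s * sin ε)), mul_pos st (sub_pos.2 c)]
  have k2 := (abs_lt.1 (abs_lt_of_sq_lt_sq k sl.le)).2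
  refine lt_of_mul_lt_mul_left (a := 2 * (s * t)) ?_ (by positivity)
  linarith [congrArg (t * ·) a, congrArg (s * ·) b]

lemma dec' {n : ℕ} (hn : 1 ≤ n) {l : ℝ} (h1 : 1 < l * (n + 1)) (h2 : l * n < 1) (k : ℕ) {x : ℝ}
    (x0 : 0 ≤ x) (x1 : x + (k + 1) * l ≤ 1) : g n (x + (k + 1) * l) < g n x := by
  have l0 : 0 < l := by nlinarith [(n.cast_nonneg : (0 : ℝ) ≤ n)]
  induction k with
  | zero => simpa using dec hn h1 h2 x0 (by simpa using x1)
  | succ k ih =>
    push_cast at x1 ⊢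
    refine lt_trans ?_ (ih (by linarith))
    rw [add_mul (k + 1 : ℝ), one_mul, ← add_assoc]
    exact dec hn h1 h2 (by positivity) (by linarith)

theorem result (n : ℕ) (hn : 1 ≤ n) : H (g n) = Icc 0 1 \ V n := by
  have n1 : (1 : ℝ) ≤ n := by exact_mod_cast hn
  have p := pi_pos
  have cg : Continuous (g n) := by
    unfold g
    fun_prop
  ext l
  simp only [H, V, mem_diff, mem_setOf_eq, mem_iUnion, Finset.mem_Icc, mem_Ioo, and_congr_right_iff]
  intro ⟨l0, l1⟩
  constructor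
  · rintro ⟨x, hx, e⟩ ⟨k, ⟨k1, -⟩, a, b⟩
    obtain ⟨k, rfl⟩ : ∃ j, k = j + 1 := ⟨k - 1, by omega⟩
    push_cast at a b
    rw [div_lt_iff₀ (by positivity)] at a
    rw [lt_div_iff₀ (by positivity)] at b
    have e2 : x - l + (k + 1) * (l / (k + 1)) = x := by field_simp; ring
    have := dec' hn (l := l / (k + 1)) (by rwa [div_mul_eq_mul_div, one_lt_div (by positivity)])
      (by rwa [div_mul_eq_mul_div, div_lt_one (by positivity)]) k (x := x - l) (by linarith [hx.1])
      (by linarith [hx.2])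
    rw [e2] at this
    exact this.ne' e
  intro h
  rcases l0.eq_or_lt with rfl | l0
  · exact ⟨0, by simp, by simp⟩
  rcases l1.eq_or_lt with rfl | l1
  · exact ⟨1, by simp, by simp [g0, g1]⟩
  set k := ⌊l * n⌋₊
  have k1 : (k : ℝ) ≤ l * n := Nat.floor_le (by positivity)
  have k2 : l * n < k + 1 := Nat.lt_floor_add_one _
  have kn : k + 1 ≤ n := by
    have : (k : ℝ) < n := by nlinarith
    exact_mod_cast this
  have k3 : l * (n + 1) ≤ k + 1 := by
    by_contra hc
    refine h ⟨k + 1, ⟨by omega, kn⟩, ?_, ?_⟩ <;> push_cast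
    · rw [div_lt_iff₀ (by positivity)]
      linarith
    · rwa [lt_div_iff₀ (by positivity)]
  have gl : 0 ≤ g n l := by
    have a := form n l
    have sl : 0 < sin (π * l) := sin_pos_of_pos_of_lt_pi (by positivity) (by nlinarith)
    rw [← cos_sub_nat_mul_two_pi ((2 * n + 1) * (π * l)) k] at a
    have := cos_sub_cos (π * l) ((2 * n + 1) * (π * l) - k * (2 * π))
    have s1 : 0 ≤ sin ((π * l + ((2 * n + 1) * (π * l) - k * (2 * π))) / 2) :=
      sin_nonneg_of_nonneg_of_le_pi (by nlinarith) (by nlinarith)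
    have s2 : sin ((π * l - ((2 * n + 1) * (π * l) - k * (2 * π))) / 2) ≤ 0 :=
      sin_nonpos_of_nonpos_of_neg_pi_le (by nlinarith) (by nlinarith)
    refine le_of_mul_le_mul_left (a := 2 * sin (π * l)) ?_ (by positivity)
    nlinarith [mul_nonneg s1 (neg_nonneg.2 s2)]
  obtain ⟨z, ⟨z0, z1⟩, hz⟩ := isCompact_Icc.exists_isMaxOn (nonempty_Icc.2 zero_le_one) cg.continuousOn
  have zl : z * (n + 1) ≤ 1 := by
    by_contra hc
    obtain ⟨m, m1, m2⟩ := exists_between (lt_min (a := 1 / ((n : ℝ) + 1)) (b := z) (c := 1 / n)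
      (by rw [div_lt_iff₀ (by positivity)]; linarith) (by gcongr; linarith))
    have m3 := m2.trans_le (min_le_left _ _)
    have m4 := m2.trans_le (min_le_right _ _)
    have m0 : 0 < m := lt_trans (by positivity) m1
    rw [div_lt_iff₀ (by positivity)] at m1
    rw [lt_div_iff₀ (by positivity)] at m4
    have := dec hn m1 m4 (x := z - m) (by linarith) (by linarith)
    rw [sub_add_cancel] at this
    exact this.not_ge (hz ⟨by linarith, by linarith⟩)
  have kn' : (k : ℝ) + 1 ≤ n := by exact_mod_cast kn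
  have zl' : z + l ≤ 1 := le_of_mul_le_mul_right (a := (n : ℝ) + 1) (by linarith) (by positivity)
  obtain ⟨x, hx, e⟩ := intermediate_value_Icc' z0
    (f := fun x => g n (x + l) - g n x) (by fun_prop) (a := 0)
    ⟨sub_nonpos.2 (hz ⟨by linarith, zl'⟩), by simpa [g0] using gl⟩
  exact ⟨x + l, ⟨by linarith [hx.1], by linarith [hx.2]⟩, by simpa using (sub_eq_zero.1 e).symm⟩

end Pool.Agent.Results.MP_174dab_an.Chords
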